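import Pool.Agent.H68.AM.OneR
import Pool.Agent.H68.AM.OneC

/-!
# Amalgams of Lie groups over `SL₂(ℝ)` and over `SL₂(ℂ)`: every nilpotency class occurs

The library (`Pool.Graph.R_seed8.Results.MP_e90164_al.Unbounded`) shows for `K = ℝ` that the class
of `B₁B₂` is unbounded. Here both fields are treated, and the class and the dimension are computed:
for `K = ℝ` and for `K = ℂ` every class `c ≥ 1` occurs exactly, with `B₁B₂` a simply connected Lie
group of dimension `(c + 2) [K : ℝ]` if `c ≥ 2` and `2 [K : ℝ]` if `c = 1`.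

Construction for `c = k + 1 ≥ 2`, as in the library for `K = ℝ`. Let `V` be the space of binary
forms of degree `k` over `K`, `U ≅ K` the upper unipotent group, `φ(f) = f(0,1)`, `Q = V ⋊ U`, and
`G₁ = Q × SL₂(K)`, `B₁ = Q`, `G₂ = (K × V) ⋊ SL₂(K)`, `B₂ = K × V`. The group `P = K × Q` embeds in
`G₁` by `(t, q) ↦ (q, u(t - φ q))` and in `G₂` by `(t, (v, s)) ↦ ((t, v), u(s))`. As left
`P`-spaces `G₁` and `G₂` are homeomorphic (over `ℂ` by means of the smooth, not holomorphic,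
coordinate `τ(g) = (a c̄ + b d̄) / (|c|² + |d|²)` with `τ(u(t) g) = t + τ(g)`), and `G` is the group
they generate in the homeomorphism group of `G₂`. Then `B₁B₂ = P`. For `c = 1` one takes
`U × SL₂(K)` and `SL₂(K) × U` in `SL₂(K) × SL₂(K)`.
-/

set_option autoImplicit false

namespace Pool.Agent.Results.MP_e90164_al.EveryClassBothFields

open Pool.Agent.H68.AM
open Pool.Agent.Helper337.Amalgam (RealLieGroup)
open scoped Manifold MatrixGroups Pointwise

/-- There is an admissible triple `(G; G₁, G₂)`, with `S` in the place of `SL₂(K)` and with `G`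
generated by `G₁` and `G₂`, for which `B₁B₂` is a closed subgroup, nilpotent of class `c`, and
isomorphic as a topological group to a simply connected real Lie group of dimension `d`. -/
def Occurs (S : Type) [Group S] [TopologicalSpace S] (c d : ℕ) : Prop :=
  ∃ (G : Type) (_ : Group G) (_ : TopologicalSpace G) (G₁ G₂ B₁ B₂ : Subgroup G),
    Admissible S G₁ G₂ B₁ B₂ ∧ G₁ ⊔ G₂ = ⊤ ∧
      ((B₁ ⊔ B₂ : Subgroup G) : Set G) = (B₁ : Set G) * B₂ ∧
      Group.IsNilpotent ↥(B₁ ⊔ B₂) ∧ Group.nilpotencyClass ↥(B₁ ⊔ B₂) = c ∧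
      IsClosed ((B₁ ⊔ B₂ : Subgroup G) : Set G) ∧
      ∃ (L : RealLieGroup) (_ : L.carrier ≃ₜ* ↥(B₁ ⊔ B₂)), SimplyConnectedSpace L.carrier ∧
        Module.finrank ℝ L.E = d

theorem occurs_real (k : ℕ) (hk : 0 < k) : Occurs SL(2,ℝ) (k + 1) (k + 3) := by
  have h := Pool.Agent.Helper337.Amalgam.admissible k hk
  obtain ⟨h1, h2, h3, L, e, h4, h5⟩ := Pool.Agent.H68.AMR.exact_class k _
    (Pool.Agent.H68.AMR.range_FF k)
  refine ⟨_, inferInstance, inferInstance, _, _, _, _, admissible_of_lib h,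
    Pool.Agent.Helper337.Amalgam.gen k, coe_sup_eq_mul (admissible_of_lib h), h1, h2, h3, L, e,
    h4, ?_⟩
  rw [h5]
  simp

theorem occurs_complex (k : ℕ) (hk : 0 < k) : Occurs SL(2,ℂ) (k + 1) (2 * (k + 3)) := by
  have h := Pool.Agent.H68.AM.admissible k hk
  obtain ⟨h1, h2, h3, L, e, h4, h5⟩ := exact_class k _ (range_FF k)
  refine ⟨_, inferInstance, inferInstance, _, _, _, _, h,
    Pool.Agent.H68.AM.gen k, coe_sup_eq_mul h, h1, h2, h3, L, e, h4, ?_⟩
  rw [h5, Complex.finrank_real_complex]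
  ring

theorem occurs_real_one : Occurs SL(2,ℝ) 1 2 := by
  obtain ⟨h1, h2, h3, L, e, h4, h5⟩ := Pool.Agent.H68.AMR.exact_one _
    Pool.Agent.H68.AMR.range_ff3
  refine ⟨_, inferInstance, inferInstance, _, _, _, _, Pool.Agent.H68.AMR.admissible_one,
    Pool.Agent.H68.AMR.gen_one, coe_sup_eq_mul Pool.Agent.H68.AMR.admissible_one, h1, h2, h3, L, e,
    h4, ?_⟩
  rw [h5]
  simp

theorem occurs_complex_one : Occurs SL(2,ℂ) 1 4 := by
  obtain ⟨h1, h2, h3, L, e, h4, h5⟩ := exact_one _ range_ff3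
  refine ⟨_, inferInstance, inferInstance, _, _, _, _, admissible_one,
    gen_one, coe_sup_eq_mul admissible_one, h1, h2, h3, L, e, h4, ?_⟩
  rw [h5, Complex.finrank_real_complex]

/-- **Every nilpotency class occurs, over both fields.** For `S = SL₂(ℝ)` and for `S = SL₂(ℂ)`:
no `N` bounds the classes of the groups `B₁B₂` in the admissible triples (Q1 is false), and
1. class `1` occurs exactly, with `B₁B₂` of dimension `2 [K : ℝ]`;
2. every class `c ≥ 2` occurs exactly, with `B₁B₂` of dimension `(c + 2) [K : ℝ]`. -/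
theorem result :
    (¬ ∃ N : ℕ, ∀ (G : Type) [Group G] [TopologicalSpace G] (G₁ G₂ B₁ B₂ : Subgroup G),
      Admissible SL(2,ℝ) G₁ G₂ B₁ B₂ → Group.nilpotencyClass ↥(B₁ ⊔ B₂) ≤ N) ∧
    (¬ ∃ N : ℕ, ∀ (G : Type) [Group G] [TopologicalSpace G] (G₁ G₂ B₁ B₂ : Subgroup G),
      Admissible SL(2,ℂ) G₁ G₂ B₁ B₂ → Group.nilpotencyClass ↥(B₁ ⊔ B₂) ≤ N) ∧
    Occurs SL(2,ℝ) 1 2 ∧ Occurs SL(2,ℂ) 1 4 ∧
    ∀ c : ℕ, 2 ≤ c → Occurs SL(2,ℝ) c (c + 2) ∧ Occurs SL(2,ℂ) c (2 * (c + 2)) := by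
  have hall : ∀ c : ℕ, 2 ≤ c → Occurs SL(2,ℝ) c (c + 2) ∧ Occurs SL(2,ℂ) c (2 * (c + 2)) := by
    intro c hc
    obtain ⟨k, rfl⟩ : ∃ k, c = k + 1 := ⟨c - 1, by omega⟩
    exact ⟨occurs_real k (by omega), occurs_complex k (by omega)⟩
  refine ⟨?_, ?_, occurs_real_one, occurs_complex_one, hall⟩
  · rintro ⟨N, hN⟩
    obtain ⟨G, i1, i2, G₁, G₂, B₁, B₂, h, -, -, -, hc, -⟩ := (hall (N + 2) (by omega)).1
    have := hN G G₁ G₂ B₁ B₂ h
    omega
  · rintro ⟨N, hN⟩
    obtain ⟨G, i1, i2, G₁, G₂, B₁, B₂, h, -, -, -, hc, -⟩ := (hall (N + 2) (by omega)).2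
    have := hN G G₁ G₂ B₁ B₂ h
    omega

end Pool.Agent.Results.MP_e90164_al.EveryClassBothFields
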